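import Mathlib
import Pool.Agent.Lib.MP_ff773e_gt.Defs
import Pool.Agent.Lib.MP_ff773e_gt.Body
import Pool.Agent.Lib.MP_ff773e_gt.Beta
import Pool.Agent.Lib.MP_ff773e_gt.SharpB
import Pool.Agent.Lib.MP_ff773e_gt.SharpC

/-!
# Q1 of MP_ff773e_gt: a positive answer with the optimal order

`f(p) = 130000 / p` has the property asked for in Q1, and every function with this property is at
least `1 / (10 p)`.

Outline of the proof of the upper bound, for a convex body `K` with `p = γ(K)`.  Let `x₀` be the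
barycentre of `γ` restricted to `K`.  If the ball of radius `h` about `x₀` is not contained in `K`,
there is a unit vector `v` with `⟪v, x - x₀⟫ ≤ h` on `K`; as `⟪v, x - x₀⟫` has mean zero on `K`, its
absolute value has mean at most `2 h`, so at least half of `K` (in measure) lies in the slab
`|⟪v, x - x₀⟫| ≤ 4 h`.  Resampling the `v`-coordinate shows `p ≤ 32 h γ(K + [-v, v])`.  So the ball of
radius `p / 64` about `x₀` lies in `K`, and there is a radius `R` such that the ball of radius `R`
about `x₀` lies in `K` and `γ(K + [-v, v]) ≥ 1 / A` with `A = 64 R / p ≥ 1`.  The rotation trick and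
the potential argument of the library balance vectors of length `1 / 1000` up to a distance
`2 A - 2` from a symmetric set `S` with `y + S / √2 ⊆ K + [-v, v]`, and this distance is absorbed by
the ball of radius `R`.

The lower bound comes from intervals in dimension one for `p ≤ 2 / 5`, and from the balls of radius
`2 √n` in `ℝⁿ`, whose Gaussian measure tends to `1`, for larger `p`.
-/

set_option autoImplicit false

namespace Pool.Agent.Results.MP_ff773e_gt.SharpBalancing

open Set
open scoped Pointwise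
open Pool.Agent.Lib.MP_ff773e_gt

/-- The property of Q1: `f` is positive and non-increasing on `(0,1)`, and for every `n ≥ 1` and
every convex body `V ⊂ ℝⁿ`, `inf_x β(B₂ⁿ, V + x) ≤ inf_x f(γₙ(V + x))`, where the first infimum is
over the `x` for which `0` is in the interior of `V + x`. -/
def Admissible (f : ℝ → ℝ) : Prop :=
  AntitoneOn f (Ioo 0 1) ∧ (∀ p ∈ Ioo (0 : ℝ) 1, 0 < f p) ∧
    ∀ n : ℕ, 1 ≤ n → ∀ V : Set (Rn n), IsConvexBody V →
      (⨅ x : {x : Rn n // 0 ∈ interior (x +ᵥ V)}, beta (x.1 +ᵥ V)) ≤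
        (⨅ x : Rn n, f (gam (x +ᵥ V)))

theorem admissible : Admissible fun p => 130000 / p := by
  have hfpos : ∀ p ∈ Ioo (0 : ℝ) 1, 0 < (fun p : ℝ => 130000 / p) p := by
    intro p hp
    have := hp.1
    show 0 < 130000 / p
    positivity
  refine ⟨?_, hfpos, ?_⟩
  · intro p hp q hq hpq
    have hp0 := hp.1
    show 130000 / q ≤ 130000 / p
    gcongr
  · intro n hn V hV
    obtain ⟨hVc, hVconv, hVi⟩ := hV
    have : NeZero n := ⟨by omega⟩
    have : Nontrivial (Rn n) := by infer_instance
    have hgam : ∀ x : Rn n, gam (x +ᵥ V) ∈ Ioo (0 : ℝ) 1 := by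
      intro x
      refine ⟨gam_pos_of_interior ?_, gam_lt_one hn (hVc.vadd x)⟩
      rw [interior_vadd]
      exact hVi.vadd_set
    have hex : ∃ x : Rn n, 0 ∈ interior (x +ᵥ V) := by
      obtain ⟨v, hv⟩ := hVi
      refine ⟨-v, ?_⟩
      rw [interior_vadd, Set.mem_vadd_set]
      exact ⟨v, hv, by simp⟩
    have hleast : ∀ x : Rn n, 0 ∈ interior (x +ᵥ V) →
        IsLeast {C : ℝ | 0 < C ∧ Balances C (x +ᵥ V)} (beta (x +ᵥ V)) :=
      fun x hx => isLeast_beta hn (hVc.vadd x) hx
    apply le_ciInf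
    intro y
    obtain ⟨x₀, h0, hbal⟩ := sharp_balancing (K := y +ᵥ V) (hVconv.vadd y)
      (hVc.vadd y) (hgam y).1
    have hset : (-x₀) +ᵥ (y +ᵥ V) = (-x₀ + y) +ᵥ V := by
      rw [vadd_vadd]
    rw [hset] at h0 hbal
    have hbdd : BddBelow (range fun x : {x : Rn n // 0 ∈ interior (x +ᵥ V)} => beta (x.1 +ᵥ V)) := by
      refine ⟨0, ?_⟩
      rintro _ ⟨x, rfl⟩
      exact (hleast x.1 x.2).1.1.le
    refine (ciInf_le hbdd ⟨-x₀ + y, h0⟩).trans ?_
    apply (hleast _ h0).2
    refine ⟨hfpos _ (hgam y), ?_⟩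
    intro u hu
    exact hbal n u (fun i => by simpa using hu i)

/-- **Positive answer to Q1, with the optimal order.**  There is a function with the property of Q1;
`f(p) = 130000 / p` is one; and every function with this property is at least `1 / (10 p)` on
`(0,1)`.  The last clauses record that the objects in Q1 are well defined: all translates have
Gaussian measure in `(0,1)`; some translate has `0` in its interior; and on every such translate
`beta` is the least admissible constant. -/
theorem result :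
    (∃ f : ℝ → ℝ, Admissible f) ∧
    (Admissible fun p => 130000 / p) ∧
    (∀ f : ℝ → ℝ, Admissible f → ∀ p ∈ Ioo (0 : ℝ) 1, 1 / (10 * p) ≤ f p) ∧
    ∀ n : ℕ, 1 ≤ n → ∀ V : Set (Rn n), IsConvexBody V →
      (∀ x : Rn n, gam (x +ᵥ V) ∈ Ioo (0 : ℝ) 1) ∧
      (∃ x : Rn n, 0 ∈ interior (x +ᵥ V)) ∧
      (∀ x : Rn n, 0 ∈ interior (x +ᵥ V) →
        IsLeast {C : ℝ | 0 < C ∧ Balances C (x +ᵥ V)} (beta (x +ᵥ V))) := by
  refine ⟨⟨_, admissible⟩, admissible, fun f hf => le_of_admissible hf.1 hf.2.1 hf.2.2, ?_⟩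
  intro n hn V hV
  obtain ⟨hVc, hVconv, hVi⟩ := hV
  refine ⟨?_, ?_, fun x hx => isLeast_beta hn (hVc.vadd x) hx⟩
  · intro x
    refine ⟨gam_pos_of_interior ?_, gam_lt_one hn (hVc.vadd x)⟩
    rw [interior_vadd]
    exact hVi.vadd_set
  · obtain ⟨v, hv⟩ := hVi
    refine ⟨-v, ?_⟩
    rw [interior_vadd, Set.mem_vadd_set]
    exact ⟨v, hv, by simp⟩

end Pool.Agent.Results.MP_ff773e_gt.SharpBalancing
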